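import Pool.Agent.Y158.FQ.Ine

/-!
# The discrete valuation ring of a finite extension below a valuation ring of the closure
-/

set_option autoImplicit false

namespace Pool.Agent.X281.FL

open Polynomial

/-- the discrete valuation ring of a finite extension below `V` -/
theorem dvr_below {A k κ : Type} [CommRing A] [IsDomain A] [IsDiscreteValuationRing A] [Field k]
    [Field κ] [Algebra A k] [Algebra k κ] [Algebra A κ] [IsScalarTower A k κ] [IsFractionRing A k]
    [CharZero k] [Finite (IsLocalRing.ResidueField A)] (E : IntermediateField k κ)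
    [FiniteDimensional k E] (V : ValuationSubring κ) (hVa : ∀ a : A, algebraMap A κ a ∈ V)
    (hVm : ∀ a ∈ IsLocalRing.maximalIdeal A, algebraMap A κ a ∈ V.nonunits) :
    ∃ (A' : Type) (_ : CommRing A') (_ : IsDomain A') (_ : IsDiscreteValuationRing A')
      (_ : Algebra A' E), IsFractionRing A' E ∧ Finite (IsLocalRing.ResidueField A') ∧
      (∀ a : A', algebraMap E κ (algebraMap A' E a) ∈ V) ∧
      (∀ a ∈ IsLocalRing.maximalIdeal A', algebraMap E κ (algebraMap A' E a) ∈ V.nonunits) ∧
      ∀ n : ℕ, IsUnit (n : A) → IsUnit (n : A') := by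
  classical
  let _ : Algebra A E := ((algebraMap k E).comp (algebraMap A k)).toAlgebra
  have ht1 : IsScalarTower A k E := IsScalarTower.of_algebraMap_eq fun _ => rfl
  have ht2 : IsScalarTower A E κ := IsScalarTower.of_algebraMap_eq fun a => by
    rw [IsScalarTower.algebraMap_apply A k κ, IsScalarTower.algebraMap_apply k E κ]
    rfl
  have hsep : Algebra.IsSeparable k E := inferInstance
  let S := integralClosure A E
  have hfr : IsFractionRing S E := integralClosure.isFractionRing_of_finite_extension k E
  have hded : IsDedekindDomain S := integralClosure.isDedekindDomain A k E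
  have hfinS : Module.Finite A S := IsIntegralClosure.finite A k E S
  -- the map to `V`
  let g : A →+* V := (algebraMap A κ).codRestrict V.toSubring hVa
  let _ : Algebra A V := g.toAlgebra
  have ht3 : IsScalarTower A V κ := IsScalarTower.of_algebraMap_eq fun _ => rfl
  have hSV : ∀ s : S, algebraMap E κ (s : E) ∈ V := by
    intro s
    have h1 : IsIntegral A (s : E) := s.2
    have h2 : IsIntegral A (algebraMap E κ (s : E)) := by
      obtain ⟨P, hP, hP0⟩ := h1
      refine ⟨P, hP, ?_⟩
      have h4 := congrArg (algebraMap E κ) hP0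
      rw [Polynomial.hom_eval₂, map_zero] at h4
      rw [IsScalarTower.algebraMap_eq A E κ]
      exact h4
    have h3 : IsIntegral V (algebraMap E κ (s : E)) := h2.tower_top
    obtain ⟨y, hy⟩ := IsIntegrallyClosed.isIntegral_iff.1 h3
    rw [← hy]
    exact y.2
  let f : S →+* V := ((algebraMap E κ).comp (algebraMap S E)).codRestrict V.toSubring hSV
  have hf : ∀ s : S, ((f s : V) : κ) = algebraMap E κ (s : E) := fun s => rfl
  set q : Ideal S := (IsLocalRing.maximalIdeal V).comap f with hq
  have hqp : q.IsPrime := inferInstance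
  have hmemq : ∀ s : S, s ∈ q ↔ algebraMap E κ (s : E) ∈ V.nonunits := by
    intro s
    rw [hq, Ideal.mem_comap, ← ValuationSubring.coe_mem_nonunits_iff]
    rfl
  have hAS : ∀ a : A, algebraMap E κ ((algebraMap A S a : S) : E) = algebraMap A κ a := by
    intro a
    rw [IsScalarTower.algebraMap_apply A E κ]
    rfl
  obtain ⟨ϖ, hϖ⟩ := IsDiscreteValuationRing.exists_irreducible A
  have hinjκ : Function.Injective (algebraMap A κ) := by
    rw [IsScalarTower.algebraMap_eq A k κ]
    exact (algebraMap k κ).injective.comp (IsFractionRing.injective A k)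
  have hq0 : q ≠ ⊥ := by
    intro h
    have h1 : algebraMap A S ϖ ∈ q := by
      rw [hmemq, hAS]
      exact hVm ϖ (by rw [hϖ.maximalIdeal_eq]; exact Ideal.mem_span_singleton_self _)
    rw [h, Ideal.mem_bot] at h1
    have h2 := hAS ϖ
    rw [h1] at h2
    have h3 : algebraMap A κ ϖ = 0 := by rw [← h2]; simp
    exact hϖ.ne_zero (hinjκ (by rw [h3, map_zero]))
  have hqm : q.IsMaximal := Ideal.IsPrime.isMaximal hqp hq0
  set p : Ideal A := IsLocalRing.maximalIdeal A with hp
  have hpm : p.IsMaximal := inferInstance
  have hover : q.LiesOver p := by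
    refine ⟨?_⟩
    have h1 : p ≤ q.under A := by
      intro a ha
      rw [Ideal.mem_comap, hmemq, hAS]
      exact hVm a ha
    refine hpm.eq_of_le ?_ h1
    exact Ideal.IsPrime.ne_top inferInstance
  have hle : q.primeCompl ≤ nonZeroDivisors S := q.primeCompl_le_nonZeroDivisors
  let A' := Localization.subalgebra.ofField E q.primeCompl hle
  have hloc : IsLocalization.AtPrime A' q :=
    Localization.subalgebra.isLocalization_ofField E q.primeCompl hle
  have hdvr : IsDiscreteValuationRing A' :=
    IsLocalization.AtPrime.isDiscreteValuationRing_of_dedekind_domain S hq0 A'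
  have hfr' : IsFractionRing A' E := inferInstance
  let e : (S ⧸ q) ≃+* IsLocalRing.ResidueField A' :=
    IsLocalization.AtPrime.equivQuotMaximalIdeal q A'
  let _ : Field (A ⧸ p) := Ideal.Quotient.field _
  let _ : Field (S ⧸ q) := Ideal.Quotient.field _
  have hfinq : FiniteDimensional (A ⧸ p) (S ⧸ q) := inferInstance
  have hfinR : Finite (A ⧸ p) := ‹Finite (IsLocalRing.ResidueField A)›
  have hfinSq : Finite (S ⧸ q) := Module.finite_of_finite (A ⧸ p)
  have hfinA : Finite (IsLocalRing.ResidueField A') := Finite.of_equiv _ e.toEquiv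
  have hSA : ∀ s : S, algebraMap A' E (algebraMap S A' s) = (s : E) := fun s => rfl
  -- elements of `A'`
  have hrep : ∀ a : A', ∃ (x y : S), y ∉ q ∧ a * algebraMap S A' y = algebraMap S A' x ∧
      algebraMap E κ (algebraMap A' E a) =
        algebraMap E κ (x : E) * (algebraMap E κ (y : E))⁻¹ ∧
      (algebraMap E κ (y : E))⁻¹ ∈ V := by
    intro a
    obtain ⟨⟨x, y⟩, hxy⟩ := IsLocalization.surj q.primeCompl a
    have hy : (y : S) ∉ q := y.2
    have hy1 : algebraMap E κ ((y : S) : E) ∉ V.nonunits := fun h => hy ((hmemq _).2 h)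
    have hy0 : algebraMap E κ ((y : S) : E) ≠ 0 := by
      intro h
      apply hy1
      rw [h]
      exact zero_mem _
    refine ⟨x, y, hy, hxy, ?_, ?_⟩
    · rw [eq_mul_inv_iff_mul_eq₀ hy0, ← map_mul]
      congr 1
      have h1 := congrArg (algebraMap A' E) hxy
      rw [map_mul, hSA, hSA] at h1
      exact h1
    · by_contra h2
      apply hy1
      rw [ValuationSubring.mem_nonunits_iff_or]
      exact Or.inr h2
  refine ⟨A', inferInstance, inferInstance, hdvr, inferInstance, hfr', hfinA, ?_, ?_, ?_⟩
  · intro a
    obtain ⟨x, y, -, -, h1, h2⟩ := hrep a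
    rw [h1]
    exact mul_mem (hSV x) h2
  · intro a ha
    obtain ⟨x, y, -, h0, h1, h2⟩ := hrep a
    have hx : x ∈ q := by
      rw [← IsLocalization.AtPrime.to_map_mem_maximal_iff A' q x, ← h0]
      exact Ideal.mul_mem_right _ _ ha
    rw [h1, mul_comm]
    exact Pool.Agent.Y748.PS.nu_mul h2 ((hmemq x).1 hx)
  · intro n hn
    have h1 := (hn.map (algebraMap A S)).map (algebraMap S A')
    rwa [map_natCast, map_natCast] at h1

end Pool.Agent.X281.FL
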