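import Pool.Agent.X281.FL.Root
import Pool.Agent.Y157.PS.Sup2

/-!
# The cusp of a section: twisted Fermat curves over complete fields
-/

set_option autoImplicit false
set_option linter.all false

namespace Pool.Agent.X281.FL

open Polynomial FF Pool.Agent.Y157.PS

section val

variable {A k : Type} [CommRing A] [IsDomain A] [IsDiscreteValuationRing A]
  [Field k] [Algebra A k] [IsFractionRing A k]

/-- `d` has valuation `n` -/
def Val (ϖ : A) (d : k) (n : ℤ) : Prop :=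
  ∃ t : A, IsUnit t ∧ d = algebraMap A k t * algebraMap A k ϖ ^ n

theorem algMap_irr {ϖ : A} (hϖ : Irreducible ϖ) : algebraMap A k ϖ ≠ 0 := by
  intro h
  exact hϖ.ne_zero (IsFractionRing.injective A k (by rw [h, map_zero]))

theorem algMap_inv {t : A} (ht : IsUnit t) :
    ∃ t' : A, IsUnit t' ∧ (algebraMap A k t)⁻¹ = algebraMap A k t' := by
  obtain ⟨t', h⟩ := ht.exists_right_inv
  refine ⟨t', IsUnit.of_mul_eq_one t (by rw [mul_comm]; exact h), ?_⟩
  exact inv_eq_of_mul_eq_one_right (by rw [← map_mul, h, map_one])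

theorem Val.ne_zero {ϖ : A} (hϖ : Irreducible ϖ) {d : k} {n : ℤ} (h : Val ϖ d n) : d ≠ 0 := by
  obtain ⟨t, ht, rfl⟩ := h
  exact mul_ne_zero (ht.map (algebraMap A k)).ne_zero (zpow_ne_zero _ (algMap_irr hϖ))

theorem Val.mul {ϖ : A} (hϖ : Irreducible ϖ) {d e : k} {n m : ℤ} (h : Val ϖ d n)
    (h' : Val ϖ e m) : Val ϖ (d * e) (n + m) := by
  obtain ⟨t, ht, rfl⟩ := h
  obtain ⟨t', ht', rfl⟩ := h'
  refine ⟨t * t', ht.mul ht', ?_⟩
  rw [zpow_add₀ (algMap_irr hϖ), map_mul]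
  ring

theorem Val.inv {ϖ : A} (hϖ : Irreducible ϖ) {d : k} {n : ℤ} (h : Val ϖ d n) :
    Val ϖ d⁻¹ (-n) := by
  obtain ⟨t, ht, rfl⟩ := h
  obtain ⟨t', ht', h1⟩ := algMap_inv (k := k) ht
  exact ⟨t', ht', by rw [mul_inv, h1, zpow_neg]⟩

theorem Val.div {ϖ : A} (hϖ : Irreducible ϖ) {d e : k} {n m : ℤ} (h : Val ϖ d n)
    (h' : Val ϖ e m) : Val ϖ (d / e) (n - m) := by
  rw [div_eq_mul_inv, sub_eq_add_neg]
  exact h.mul hϖ (h'.inv hϖ)

theorem Val.neg {ϖ : A} {d : k} {n : ℤ} (h : Val ϖ d n) : Val ϖ (-d) n := by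
  obtain ⟨t, ht, rfl⟩ := h
  exact ⟨-t, ht.neg, by rw [map_neg, neg_mul]⟩

theorem Val.unique {ϖ : A} (hϖ : Irreducible ϖ) {d : k} {n m : ℤ} (h : Val ϖ d n)
    (h' : Val ϖ d m) : n = m := by
  have h1 := h.div hϖ h'
  rw [div_self (h.ne_zero hϖ)] at h1
  obtain ⟨t, ht, h2⟩ := h1
  obtain ⟨t', ht', h3⟩ := algMap_inv (k := k) ht
  have h4 : algebraMap A k ϖ ^ (n - m) = algebraMap A k t' := by
    rw [← h3]
    exact (inv_eq_of_mul_eq_one_right h2.symm).symm
  have h5 := Pool.Agent.W623.SecC.zpow_unit_eq ϖ hϖ t' ht' (n - m) h4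
  omega

theorem exists_val {ϖ : A} (hϖ : Irreducible ϖ) {d : k} (hd : d ≠ 0) : ∃ n : ℤ, Val ϖ d n := by
  obtain ⟨u, j, h⟩ := Pool.Agent.W623.SecC.exists_unit_zpow ϖ hϖ d hd
  exact ⟨j, u, u.isUnit, h⟩

theorem Val.pow {ϖ : A} {d : k} {n : ℤ} (h : Val ϖ d n) (ℓ : ℕ) : Val ϖ (d ^ ℓ) (ℓ * n) := by
  obtain ⟨t, ht, rfl⟩ := h
  refine ⟨t ^ ℓ, ht.pow ℓ, ?_⟩
  rw [mul_pow, map_pow, mul_comm (ℓ : ℤ) n, zpow_mul, zpow_natCast]

theorem Val.dvd_of_root {ϖ : A} (hϖ : Irreducible ϖ) {ℓ : ℕ} (hℓ : ℓ ≠ 0) {c e : k} {n : ℤ}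
    (hc : c ^ ℓ = e) (he : Val ϖ e n) : (ℓ : ℤ) ∣ n := by
  have hc0 : c ≠ 0 := by
    rintro rfl
    rw [zero_pow hℓ] at hc
    exact he.ne_zero hϖ hc.symm
  obtain ⟨j, hj⟩ := exists_val hϖ hc0
  have h1 := hj.pow ℓ
  rw [hc] at h1
  exact ⟨j, he.unique hϖ h1⟩

end val

section main

variable {A k F Ω : Type} [CommRing A] [IsDomain A] [IsDiscreteValuationRing A]
  [IsAdicComplete (IsLocalRing.maximalIdeal A) A]
  [Finite (IsLocalRing.ResidueField A)] [Field k] [CharZero k] [Algebra A k] [IsFractionRing A k]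
  [Field F] [Field Ω] [Algebra k F] [Algebra F Ω] [Algebra k Ω] [IsScalarTower k F Ω]
  [IsAlgClosed Ω] [Algebra.IsAlgebraic F Ω]

theorem fermat_poly {ℓ : ℕ} (hℓ3 : 3 ≤ ℓ) (hℓA : IsUnit (ℓ : A)) (β : A) (hβ : IsUnit β) :
    (C β * X ^ ℓ + 1 : A[X]).natDegree = ℓ ∧ (C β * X ^ ℓ + 1 : A[X]).leadingCoeff = β ∧
      ((C β * X ^ ℓ + 1 : A[X]).map (IsLocalRing.residue A)).Separable := by
  have hℓ0 : ℓ ≠ 0 := by omega
  have hd : (C β * X ^ ℓ + 1 : A[X]).natDegree = ℓ := by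
    have h1 : (C β * X ^ ℓ : A[X]).natDegree = ℓ := natDegree_C_mul_X_pow ℓ β hβ.ne_zero
    rw [natDegree_add_eq_left_of_natDegree_lt, h1]
    rw [natDegree_one, h1]
    omega
  refine ⟨hd, ?_, ?_⟩
  · rw [leadingCoeff, hd, coeff_add, coeff_C_mul, coeff_X_pow_self, mul_one, coeff_one,
      if_neg hℓ0.symm.symm, add_zero]
  · rw [Polynomial.map_add, Polynomial.map_mul, map_C, Polynomial.map_pow, map_X,
      Polynomial.map_one]
    set b := IsLocalRing.residue A β with hb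
    have hb0 : b ≠ 0 := (hβ.map (IsLocalRing.residue A)).ne_zero
    have hℓb : (ℓ : IsLocalRing.ResidueField A) ≠ 0 := by
      have h1 := (hℓA.map (IsLocalRing.residue A)).ne_zero
      rwa [map_natCast] at h1
    have h1 : (C b * X ^ ℓ + 1 : (IsLocalRing.ResidueField A)[X]) =
        C b * (X ^ ℓ - C (-b⁻¹)) := by
      rw [mul_sub, ← C_mul, mul_neg, mul_inv_cancel₀ hb0, C_neg, C_1, sub_neg_eq_add]
    rw [h1]
    refine Separable.unit_mul (isUnit_C.2 hb0.isUnit) ?_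
    exact separable_X_pow_sub_C (-b⁻¹) hℓb (neg_ne_zero.2 (inv_ne_zero hb0))

/-- **one cusp**: the twisted Fermat curve `d x₂^ℓ = 1 + g x₁^ℓ` where the valuation of `g` is
divisible by `ℓ` and the one of `d` is not -/
theorem one_cusp {ℓ : ℕ} [hp : Fact ℓ.Prime] (hℓ3 : 3 ≤ ℓ) (hℓA : IsUnit (ℓ : A)) (ϖ : A)
    (hϖ : Irreducible ϖ) (g d : k) (n m : ℤ) (hg : Val ϖ g n) (hd : Val ϖ d m)
    (hn : (ℓ : ℤ) ∣ n) (hm : ¬ (ℓ : ℤ) ∣ m)
    (x1 x2 : F) (hx : Transcendental k x1)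
    (hxy : algebraMap k F d * x2 ^ ℓ = 1 + algebraMap k F g * x1 ^ ℓ)
    (hF : IntermediateField.adjoin k {x1, x2} = (⊤ : IntermediateField k F))
    (N : IntermediateField F Ω) (hN : geomPro ℓ k F Ω ≤ N)
    (S : (algebraicClosure k Ω ≃ₐ[k] algebraicClosure k Ω) →* (N ≃ₐ[F] N)) (hcont : Continuous S)
    (hcompat : ∀ σ (c : algebraicClosure k Ω) (z : N), (z : Ω) = (c : Ω) →
      (S σ z : Ω) = (σ c : Ω)) :
    ∃ W : ValuationSubring N,
      (∀ c : k, algebraMap F N (algebraMap k F c) ∈ W) ∧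
      algebraMap F N x2 ∈ W.nonunits ∧
      (∀ z : F, algebraMap F N z ∈ W →
        ∃ c : k, algebraMap F N (z - algebraMap k F c) ∈ W.nonunits) ∧
      (∀ σ, ∀ z : N, (z : Ω) ∈ geomPro ℓ k F Ω → (S σ z ∈ W ↔ z ∈ W)) ∧
      ∀ W' : ValuationSubring N,
        (∀ c : k, algebraMap F N (algebraMap k F c) ∈ W') →
        ¬ (IsU W' (algebraMap F N x1) ∧ IsU W' (algebraMap F N x2)) →
        (∀ σ, ∀ z : N, (z : Ω) ∈ geomPro ℓ k F Ω → (S σ z ∈ W' ↔ z ∈ W')) →
        ∀ z : N, (z : Ω) ∈ geomPro ℓ k F Ω → (z ∈ W' ↔ z ∈ W) := by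
  have hℓ0 : ℓ ≠ 0 := by omega
  have hd0 : d ≠ 0 := hd.ne_zero hϖ
  have hg0 : g ≠ 0 := hg.ne_zero hϖ
  obtain ⟨j, rfl⟩ := hn
  obtain ⟨β, hβ, hgβ⟩ := id hg
  obtain ⟨t, ht, hdt⟩ := id hd
  obtain ⟨hdeg, hlc, hsep⟩ := fermat_poly hℓ3 hℓA β hβ
  set f : A[X] := C β * X ^ ℓ + 1 with hf
  set π : k := algebraMap A k ϖ ^ j with hπ
  have hπ0 : π ≠ 0 := zpow_ne_zero _ (algMap_irr hϖ)
  have hπF : algebraMap k F π ≠ 0 := (_root_.map_ne_zero _).2 hπ0
  set X1 : F := algebraMap k F π * x1 with hX1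
  have hgπ : g = algebraMap A k β * π ^ ℓ := by
    rw [hgβ, hπ, mul_comm (ℓ : ℤ) j, zpow_mul, zpow_natCast]
  have hX1t : Transcendental k X1 := by
    intro h
    apply hx
    have h1 : x1 = algebraMap k F π⁻¹ * X1 := by
      rw [hX1, map_inv₀, inv_mul_cancel_left₀ hπF]
    rw [h1]
    exact (isAlgebraic_algebraMap _).mul h
  have hfX : aeval X1 (f.map (algebraMap A k)) = algebraMap k F d * x2 ^ ℓ := by
    rw [hf, Polynomial.map_add, Polynomial.map_mul, map_C, Polynomial.map_pow, map_X,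
      Polynomial.map_one, map_add, map_mul, aeval_C, map_pow, aeval_X, map_one, hxy, hX1, hgπ,
      map_mul, map_pow]
    ring
  have hF1 : IntermediateField.adjoin k {X1, x2} = (⊤ : IntermediateField k F) := by
    rw [eq_top_iff, ← hF, IntermediateField.adjoin_le_iff]
    intro z hz
    rcases hz with hz | hz
    · rw [hz]
      have h1 : x1 = algebraMap k F π⁻¹ * X1 := by
        rw [hX1, map_inv₀, inv_mul_cancel_left₀ hπF]
      rw [h1]
      exact mul_mem (IntermediateField.algebraMap_mem _ _)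
        (IntermediateField.subset_adjoin k _ (by simp))
    · rw [Set.mem_singleton_iff] at hz
      rw [hz]
      exact IntermediateField.subset_adjoin k _ (by simp)
  obtain ⟨W, ⟨⟨h1, ⟨e, he, h2⟩, h3⟩, h4⟩, hun⟩ :=
    padicM a_ind2 hℓA f (by rw [hlc]; exact hβ) hsep (by rw [hdeg]) (by rw [hdeg]; exact hℓ3)
      ϖ hϖ d m hm t ht hdt X1 x2 hX1t hfX.symm hF1 N hN S hcont hcompat
  -- a criterion for zeros of `x₂`
  have hzero : ∀ W : ValuationSubring N, (∀ c : k, algebraMap F N (algebraMap k F c) ∈ W) →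
      (algebraMap F N (aeval X1 (f.map (algebraMap A k))) ∈ W.nonunits ↔
        algebraMap F N x2 ∈ W.nonunits) := by
    intro W hW
    have hdU : IsU W (algebraMap F N (algebraMap k F d)) := by
      refine ⟨?_, hW d, ?_⟩
      · exact (_root_.map_ne_zero _).2 ((_root_.map_ne_zero _).2 hd0)
      · rw [← map_inv₀, ← map_inv₀]
        exact hW _
    rw [hfX, map_mul, map_pow]
    constructor
    · intro h
      have h5 := non_of_isU_mul hdU h
      by_contra hno
      have h6 := inv_mem_of_not_nonunit hno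
      have h7 : ((algebraMap F N x2) ^ ℓ)⁻¹ ∈ W := by
        rw [← inv_pow]
        exact pow_mem h6 ℓ
      rcases (nonunits_iff.1 h5).2 with h8 | h8
      · rw [pow_eq_zero_iff hℓ0] at h8
        apply hno
        rw [h8]
        exact nonunits_iff.2 ⟨zero_mem _, Or.inl rfl⟩
      · exact h8 h7
    · intro h
      refine non_mul hdU.2.1 ?_
      obtain ⟨r, hr⟩ := Nat.exists_eq_succ_of_ne_zero hℓ0
      rw [hr, pow_succ]
      exact non_mul (pow_mem (non_mem h) r) h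
  refine ⟨W, h1, ?_, h3, h4, fun W' hW'1 hW'2 hW'3 => hun W' hW'1 ?_ hW'3⟩
  · rw [← hzero W h1]
    have h5 : (f.map (algebraMap A k)).IsRoot e := by
      rw [IsRoot.def, ← coe_aeval_eq_eval]
      exact he
    obtain ⟨q, hq⟩ := dvd_iff_isRoot.2 h5
    rw [hq, map_mul, map_sub, aeval_X, aeval_C, map_mul, mul_comm]
    refine non_mul ?_ h2
    -- `q(X1)` is integral
    have hX1W : algebraMap F N X1 ∈ W := by
      have h6 : algebraMap F N X1 = algebraMap F N (X1 - algebraMap k F e) +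
          algebraMap F N (algebraMap k F e) := by
        rw [← map_add, sub_add_cancel]
      rw [h6]
      exact add_mem (non_mem h2) (h1 e)
    have h7 : ∀ q : k[X], algebraMap F N (aeval X1 q) ∈ W := by
      intro q
      induction q using Polynomial.induction_on' with
      | add p q hp hq => rw [map_add, map_add]; exact add_mem hp hq
      | monomial n a =>
        rw [aeval_monomial, map_mul, map_pow]
        exact mul_mem (h1 a) (pow_mem hX1W n)
    exact h7 q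
  · rw [hzero W' hW'1]
    have hU : ∀ c : k, c ≠ 0 → IsU W' (algebraMap F N (algebraMap k F c)) := by
      intro c hc
      refine ⟨(_root_.map_ne_zero _).2 ((_root_.map_ne_zero _).2 hc), hW'1 c, ?_⟩
      rw [← map_inv₀, ← map_inv₀]
      exact hW'1 _
    by_contra hno
    apply hW'2
    have hx20 : x2 ≠ 0 := by
      rintro rfl
      apply hno
      rw [map_zero]
      exact nonunits_iff.2 ⟨zero_mem _, Or.inl rfl⟩
    have hx10 : x1 ≠ 0 := by
      rintro rfl
      exact hx isAlgebraic_zero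
    -- `x₁` is not in the maximal ideal
    have hA : algebraMap F N x1 ∉ W'.nonunits := by
      intro h
      have h5 : algebraMap F N (x2 ^ ℓ - algebraMap k F d⁻¹) ∈ W'.nonunits := by
        have h6 : algebraMap F N (x2 ^ ℓ - algebraMap k F d⁻¹) =
            algebraMap F N (algebraMap k F (d⁻¹ * g)) * (algebraMap F N x1) ^ (ℓ - 1) *
              algebraMap F N x1 := by
          rw [mul_assoc, ← pow_succ, Nat.sub_add_cancel (by omega), ← map_pow, ← map_mul]
          congr 1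
          have hdF : algebraMap k F d ≠ 0 := (_root_.map_ne_zero _).2 hd0
          rw [map_mul, map_inv₀]
          field_simp
          linear_combination hxy
        rw [h6]
        exact non_mul (mul_mem (hW'1 _) (pow_mem (non_mem h) _)) h
      obtain ⟨c, hc⟩ := cusp_root (by omega) N hN S hcompat W' hW'1 hW'3 x2 d⁻¹ h5
      have h7 := (hd.inv hϖ).dvd_of_root hϖ hℓ0 hc
      exact hm ((dvd_neg).1 h7)
    -- `x₁⁻¹` is not in the maximal ideal
    have hB : algebraMap F N x1⁻¹ ∉ W'.nonunits := by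
      intro h
      have h5 : algebraMap F N ((x2 * x1⁻¹) ^ ℓ - algebraMap k F (d⁻¹ * g)) ∈ W'.nonunits := by
        have h6 : algebraMap F N ((x2 * x1⁻¹) ^ ℓ - algebraMap k F (d⁻¹ * g)) =
            algebraMap F N (algebraMap k F d⁻¹) * (algebraMap F N x1⁻¹) ^ (ℓ - 1) *
              algebraMap F N x1⁻¹ := by
          rw [mul_assoc, ← pow_succ, Nat.sub_add_cancel (by omega), ← map_pow, ← map_mul]
          congr 1
          have hdF : algebraMap k F d ≠ 0 := (_root_.map_ne_zero _).2 hd0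
          rw [map_mul, map_inv₀, mul_pow, inv_pow]
          field_simp
          linear_combination hxy
        rw [h6]
        exact non_mul (mul_mem (hW'1 _) (pow_mem (non_mem h) _)) h
      obtain ⟨c, hc⟩ := cusp_root (by omega) N hN S hcompat W' hW'1 hW'3 (x2 * x1⁻¹) (d⁻¹ * g) h5
      have h7 := ((hd.inv hϖ).mul hϖ hg).dvd_of_root hϖ hℓ0 hc
      apply hm
      have h8 : m = -(-m + (ℓ : ℤ) * j) + (ℓ : ℤ) * j := by ring
      rw [h8]
      exact dvd_add ((dvd_neg).2 h7) (dvd_mul_right _ _)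
    have hx1U : IsU W' (algebraMap F N x1) := by
      refine ⟨(_root_.map_ne_zero _).2 hx10, ?_, inv_mem_of_not_nonunit hA⟩
      have h5 := inv_mem_of_not_nonunit hB
      rwa [map_inv₀, inv_inv] at h5
    refine ⟨hx1U, (_root_.map_ne_zero _).2 hx20, ?_, inv_mem_of_not_nonunit hno⟩
    -- `x₂` is integral
    rcases W'.mem_or_inv_mem (algebraMap F N x2) with h5 | h5
    · exact h5
    have h6 : (algebraMap F N x2) ^ ℓ ∈ W' := by
      have h7 : (algebraMap F N x2) ^ ℓ = algebraMap F N (algebraMap k F d⁻¹) *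
          (1 + algebraMap F N (algebraMap k F g) * (algebraMap F N x1) ^ ℓ) := by
        have hdF : algebraMap k F d ≠ 0 := (_root_.map_ne_zero _).2 hd0
        rw [← map_pow, ← map_pow, ← map_mul, ← map_one (algebraMap F N), ← map_add, ← map_mul,
          ← hxy, map_inv₀, inv_mul_cancel_left₀ hdF]
      rw [h7]
      exact mul_mem (hW'1 _) (add_mem (one_mem _) (mul_mem (hW'1 _) (pow_mem hx1U.2.1 _)))
    by_contra hno2
    have h8 : (algebraMap F N x2)⁻¹ ∈ W'.nonunits := nonunits_iff.2 ⟨h5, Or.inr (by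
      rw [inv_inv]; exact hno2)⟩
    obtain ⟨r, hr⟩ := Nat.exists_eq_succ_of_ne_zero hℓ0
    have h9 : algebraMap F N x2 = (algebraMap F N x2) ^ ℓ * ((algebraMap F N x2)⁻¹) ^ r := by
      have h10 : algebraMap F N x2 ≠ 0 := (_root_.map_ne_zero _).2 hx20
      rw [hr, pow_succ, mul_comm (_ ^ r) _, mul_assoc, ← mul_pow, mul_inv_cancel₀ h10, one_pow,
        mul_one]
    apply hno2
    rw [h9]
    exact mul_mem h6 (pow_mem h5 r)

end main

end Pool.Agent.X281.FL
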