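import Pool.Agent.X281.FL.Below

/-!
# Inertia elements act on the coordinates of the Fermat curve without free rotations

(After `Pool.Agent.Y158.FQ.Ine` of the starting library, which is about places of number fields.)
-/

set_option autoImplicit false
set_option linter.all false

namespace Pool.Agent.X281.FL

open Polynomial FF Pool.Agent.Y157.PS Pool.Agent.Y158.FQ

section ine

variable {ℓ : ℕ} [hℓ : Fact ℓ.Prime] {A k κ R M : Type} [CommRing A] [IsDomain A]
  [IsDiscreteValuationRing A] [Field k] [Field κ] [Algebra A k] [Algebra k κ] [Algebra A κ]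
  [IsScalarTower A k κ] [IsFractionRing A k] [CharZero k] [Finite (IsLocalRing.ResidueField A)]
  [IsAlgClosure k κ] [Field R] [Field M] [Algebra κ R] [Algebra R M] [Algebra κ M]
  [IsScalarTower κ R M] {x : R} {Y : M}

/-- **inertia elements outside `ℓ` act on the two coordinates without a free rotation** -/
theorem ine_rotL {c c' : κ} {s : (κ ≃ₐ[k] κ) →* RingAut M}
    (hC : Cov ℓ κ R M x (nthRootsFinset ℓ (1 : κ)) Y) (hs : Tw ℓ k κ R M x Y c c' s)
    (V : ValuationSubring κ) (hVa : ∀ a : A, algebraMap A κ a ∈ V)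
    (hVm : ∀ a ∈ IsLocalRing.maximalIdeal A, algebraMap A κ a ∈ V.nonunits)
    (hℓA : IsUnit (ℓ : A)) (σ : κ ≃ₐ[k] κ) (hσ : Ine V σ) :
    σ c / c = 1 ∨ σ c' / c' = 1 ∨ σ c / c = σ c' / c' := by
  have halg : Algebra.IsAlgebraic k κ := IsAlgClosure.isAlgebraic
  haveI : IsAlgClosed κ := IsAlgClosure.isAlgClosed k
  haveI : CharZero κ := charZero_of_injective_algebraMap (algebraMap k κ).injective
  haveI : Normal k κ := IsAlgClosure.normal k κ
  have hℓ0 : ℓ ≠ 0 := hℓ.out.ne_zero
  have hc0 := hs.c0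
  have hc0' := hs.c0'
  obtain ⟨t, ht⟩ := hs.pow
  obtain ⟨t', ht'⟩ := hs.pow'
  -- the field `E`
  let E : IntermediateField k κ := IntermediateField.adjoin k {c, c'}
  have hcE : c ∈ E := IntermediateField.subset_adjoin k _ (by simp)
  have hcE' : c' ∈ E := IntermediateField.subset_adjoin k _ (by simp)
  haveI hEfin : FiniteDimensional k E := by
    haveI : Finite ({c, c'} : Set κ) := Set.toFinite _
    exact IntermediateField.finiteDimensional_adjoin (S := ({c, c'} : Set κ))
      (fun z _ => (halg.isAlgebraic z).isIntegral)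
  haveI : IsAlgClosure E κ := ⟨inferInstance, Algebra.IsAlgebraic.tower_top (K := k) E⟩
  obtain ⟨A', _, _, _, _, hfr', hfin', hVa', hVm', hun'⟩ := dvr_below (A := A) E V hVa hVm
  letI : Algebra A' κ := ((algebraMap E κ).comp (algebraMap A' E)).toAlgebra
  haveI : IsScalarTower A' E κ := IsScalarTower.of_algebraMap_eq fun _ => rfl
  have hl : IsU V (ℓ : κ) := by
    obtain ⟨a, ha⟩ := hℓA.exists_right_inv
    have h1 : (ℓ : κ) * algebraMap A κ a = 1 := by
      rw [← map_natCast (algebraMap A κ) ℓ, ← map_mul, ha, map_one]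
    have h2 : (ℓ : κ) ≠ 0 := left_ne_zero_of_mul_eq_one h1
    refine ⟨h2, ?_, ?_⟩
    · have := hVa (ℓ : A)
      rwa [map_natCast] at this
    · rw [← eq_inv_of_mul_eq_one_right h1]
      exact hVa a
  obtain ⟨O, hO, hu, hI⟩ := (Pool.Agent.Y158.GR.wgtU (k := E) hVa' hVm' (hun' ℓ hℓA) hC
    (good_of_ell hl)).2
  -- the restricted action
  let res : (κ ≃ₐ[E] κ) →* (κ ≃ₐ[k] κ) := AlgEquiv.restrictScalarsHom k
  have hres : ∀ τ z, res τ z = τ z := fun τ z => rfl
  have hfixc : ∀ τ : κ ≃ₐ[E] κ, τ c = c := fun τ => τ.commutes ⟨c, hcE⟩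
  have hfixc' : ∀ τ : κ ≃ₐ[E] κ, τ c' = c' := fun τ => τ.commutes ⟨c', hcE'⟩
  have hsec : Sec E κ R M x Y (1 : κ) (s.comp res) := by
    refine ⟨fun τ b => hs.const _ b, fun τ => ?_, fun τ => ?_, fun z => ?_⟩
    · change s (res τ) _ = _
      rw [hs.actx, hres, hfixc', div_self hc0', map_one, one_mul]
    · change s (res τ) _ = _
      rw [hs.acty, hres, hfixc, div_self hc0, div_one, map_one τ]
    · obtain ⟨E1, hE1, hE1'⟩ := hs.cont z
      let b := Module.finBasis k E1
      let T : Set κ := Set.range fun i => ((b i : E1) : κ)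
      haveI : Finite T := Set.finite_range _
      refine ⟨IntermediateField.adjoin E T, ?_, fun τ hτ => ?_⟩
      · exact IntermediateField.finiteDimensional_adjoin (S := T)
          (fun z _ => (halg.isAlgebraic z).isIntegral.tower_top)
      · change s (res τ) z = z
        refine hE1' _ ?_
        rw [IntermediateField.mem_fixingSubgroup_iff] at hτ ⊢
        intro y hy
        rw [hres]
        have h1 : y = ∑ i, (b.repr ⟨y, hy⟩ i) • ((b i : E1) : κ) := by
          have h2 := b.sum_repr ⟨y, hy⟩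
          have h3 := congrArg (fun w : E1 => (w : κ)) h2
          simp only [AddSubmonoidClass.coe_finset_sum] at h3
          exact h3.symm
        rw [h1, map_sum]
        refine Finset.sum_congr rfl fun i _ => ?_
        rw [Algebra.smul_def, map_mul, hτ _ (IntermediateField.subset_adjoin E T ⟨i, rfl⟩)]
        congr 1
        rw [IsScalarTower.algebraMap_apply k E κ]
        exact τ.commutes _
  have hI' := hI 1 one_ne_zero (fun σ _ => map_one σ) (s.comp res) hsec
  -- roots of unity are fixed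
  have hUμ : ∀ {c : κ}, c ^ ℓ = 1 → IsU V c := fun {c} hc =>
    Pool.Agent.Y748.PS.isU_of_pow hℓ.out.pos (by rw [hc]; exact Pool.Agent.Y748.PS.isU_one)
  have hfixμ : ∀ {c : κ}, c ^ ℓ = 1 → σ c = c := by
    intro c hc
    have hc0 := (hUμ hc).1
    have h1 := hσ.2 c (hUμ hc).2.1
    have h2 : (σ c / c) ^ ℓ = 1 := by
      rw [div_pow, ← map_pow, hc, map_one, div_one]
    have h3 : σ c / c - 1 = c⁻¹ * (σ c - c) := by field_simp
    have h4 := Pool.Agent.Y748.PS.rou_eq_one hl h2
      (by rw [h3]; exact Pool.Agent.Y748.PS.nu_mul (hUμ hc).2.2 h1)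
    exact (div_eq_one_iff_eq hc0).1 h4
  have hpowfix : ∀ {d : κ} {u : k}, d ≠ 0 → algebraMap k κ u = d ^ ℓ →
      (σ d / d) ^ ℓ = 1 ∧ (σ ^ ℓ) d = d := by
    intro d u hd hu
    have h1 : (σ d / d) ^ ℓ = 1 := by
      rw [div_pow, ← map_pow, ← hu, σ.commutes, div_self]
      rw [hu]
      exact pow_ne_zero _ hd
    refine ⟨h1, ?_⟩
    have h2 : ∀ n : ℕ, (σ ^ n) d = (σ d / d) ^ n * d := by
      intro n
      induction n with
      | zero => rw [pow_zero, pow_zero, one_mul]; rfl
      | succ n ih =>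
        rw [pow_succ', AlgEquiv.mul_apply, ih, map_mul, map_pow, hfixμ h1, pow_succ]
        field_simp
    rw [h2, h1, one_mul]
  obtain ⟨hξ, hcℓ⟩ := hpowfix hc0 ht
  obtain ⟨hξ', hcℓ'⟩ := hpowfix hc0' ht'
  -- the `ℓ`-th power of `σ` fixes `E`
  have hσE : ∀ z ∈ E, (σ ^ ℓ) z = z := by
    intro z hz
    have h1 : E ≤ IntermediateField.fixedField (Subgroup.zpowers (σ ^ ℓ)) := by
      rw [IntermediateField.adjoin_le_iff]
      have key : ∀ d : κ, (σ ^ ℓ) d = d →
          d ∈ IntermediateField.fixedField (Subgroup.zpowers (σ ^ ℓ)) := by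
        intro d hd
        rw [IntermediateField.mem_fixedField_iff]
        intro f hf
        obtain ⟨n, rfl⟩ := Subgroup.mem_zpowers_iff.1 hf
        have h5 : σ ^ ℓ ∈ MulAction.stabilizer (κ ≃ₐ[k] κ) d := hd
        exact (MulAction.stabilizer (κ ≃ₐ[k] κ) d).zpow_mem h5 n
      rintro d (rfl | hd)
      · exact key _ hcℓ
      · rw [Set.mem_singleton_iff] at hd
        rw [hd]
        exact key _ hcℓ'
    have h2 := h1 hz
    rw [IntermediateField.mem_fixedField_iff] at h2
    exact h2 _ (Subgroup.mem_zpowers _)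
  let τ : κ ≃ₐ[E] κ := AlgEquiv.ofRingEquiv (f := ((σ ^ ℓ : κ ≃ₐ[k] κ) : κ ≃+* κ))
    (fun z => hσE z z.2)
  have hτ : res τ = σ ^ ℓ := by ext z; rfl
  have hInePow : ∀ n : ℕ, Ine V (σ ^ n) := by
    intro n
    induction n with
    | zero =>
      refine ⟨fun z => Iff.rfl, fun z hz => ?_⟩
      rw [pow_zero, AlgEquiv.one_apply, sub_self]
      exact zero_mem _
    | succ n ih =>
      rw [pow_succ]
      exact Pool.Agent.Y748.PS.ine_mul ih hσ
  have hτI : Ine V τ := hInePow ℓ
  have hφℓ : ∀ z ∈ O, ((s σ) ^ ℓ) z - z ∈ O.nonunits := by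
    intro z hz
    have h1 := hI' τ hτI z hz
    change s (res τ) z - z ∈ _ at h1
    rw [hτ, map_pow] at h1
    exact h1
  obtain ⟨γ, hγ, hγc, hγx, hγY⟩ := lift_rot hC hl hO hu (s σ) (σ : κ ≃+* κ)
    (fun b => hs.const σ b) hσ.1 hσ.2 hξ hξ' (hs.actx σ) (hs.acty σ) hφℓ
  by_contra hcon
  push Not at hcon
  exact no_rot hC γ hγ hγc hξ hξ' hγx hγY hcon.1 hcon.2.1 hcon.2.2

end ine

end Pool.Agent.X281.FL
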