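import Pool.Agent.X281.FL.Sec3

/-!
# Twisted Fermat curves with pairwise incongruent valuations have no sections
-/

set_option autoImplicit false
set_option linter.all false

namespace Pool.Agent.X281.FL

open Polynomial FF Pool.Agent.Y157.PS Pool.Agent.Y158.FQ

section inert

variable {A k κ : Type} [CommRing A] [IsDomain A] [IsDiscreteValuationRing A]
  [Finite (IsLocalRing.ResidueField A)] [Field k] [CharZero k] [Algebra A k] [IsFractionRing A k]
  [Field κ] [Algebra k κ] [Algebra A κ] [IsScalarTower A k κ] [IsAlgClosure k κ]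

theorem isU_alg (V : ValuationSubring κ) (hVa : ∀ a : A, algebraMap A κ a ∈ V) (a : A)
    (ha : IsUnit a) : IsU V (algebraMap A κ a) := by
  obtain ⟨b, hb⟩ := ha.exists_right_inv
  have h1 : algebraMap A κ a * algebraMap A κ b = 1 := by rw [← map_mul, hb, map_one]
  refine ⟨left_ne_zero_of_mul_eq_one h1, hVa a, ?_⟩
  rw [← eq_inv_of_mul_eq_one_right h1]
  exact hVa b

/-- an inertia element that moves the `ℓ`-th root of the uniformiser, and its action on the
`ℓ`-th roots of elements -/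
theorem exists_ine {ℓ : ℕ} [hp : Fact ℓ.Prime] (V : ValuationSubring κ)
    (hVa : ∀ a : A, algebraMap A κ a ∈ V)
    (hVm : ∀ a ∈ IsLocalRing.maximalIdeal A, algebraMap A κ a ∈ V.nonunits)
    (hℓA : IsUnit (ℓ : A)) (ϖ : A) (hϖ : Irreducible ϖ) :
    ∃ (σ : κ ≃ₐ[k] κ) (η : κ), Ine V σ ∧ IsPrimitiveRoot η ℓ ∧
      ∀ (u : A) (m : ℤ) (c : κ), IsUnit u → c ^ ℓ = algebraMap A κ u * algebraMap A κ ϖ ^ m →
        σ c / c = η ^ m := by
  have hℓ0 : ℓ ≠ 0 := hp.out.ne_zero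
  haveI : IsAlgClosed κ := IsAlgClosure.isAlgClosed k
  have hinj : Function.Injective (algebraMap A κ) := by
    rw [IsScalarTower.algebraMap_eq A k κ]
    exact (algebraMap k κ).injective.comp (IsFractionRing.injective A k)
  have hϖ0 : algebraMap A κ ϖ ≠ 0 := by
    intro h
    exact hϖ.ne_zero (hinj (by rw [h, map_zero]))
  have hϖm : algebraMap A κ ϖ ∈ V.nonunits :=
    hVm ϖ (by rw [hϖ.maximalIdeal_eq]; exact Ideal.mem_span_singleton_self _)
  have hl : IsU V (ℓ : κ) := by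
    have h1 := isU_alg V hVa (ℓ : A) hℓA
    rwa [map_natCast] at h1
  obtain ⟨π, hπ⟩ := IsAlgClosed.exists_pow_nat_eq (algebraMap A κ ϖ) hp.out.pos
  have hπ0 : π ≠ 0 := by
    rintro rfl
    rw [zero_pow hℓ0] at hπ
    exact hϖ0 hπ.symm
  -- the element
  obtain ⟨σ, hσ, hσπ⟩ : ∃ σ : κ ≃ₐ[k] κ, Ine V σ ∧ σ π ≠ π := by
    by_contra hcon
    push Not at hcon
    obtain ⟨j, hj⟩ := a_ine A k κ V ϖ hVa hVm hϖ π hπ0 (fun σ hσ => hcon σ hσ)
    have h1 : IsU V ((π / algebraMap A κ ϖ ^ j) ^ ℓ) := Pool.Agent.Y748.PS.isU_pow hj ℓ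
    rw [div_pow, hπ, ← zpow_natCast (algebraMap A κ ϖ ^ j), ← zpow_mul] at h1
    have h2 : algebraMap A κ ϖ / algebraMap A κ ϖ ^ (j * ℓ) = algebraMap A κ ϖ ^ (1 - j * ℓ) := by
      rw [zpow_sub₀ hϖ0, zpow_one]
    rw [h2] at h1
    have h3 : (1 : ℤ) - j * ℓ ≠ 0 := by
      intro h
      have h4 : (ℓ : ℤ) ∣ 1 := ⟨j, by linarith⟩
      have h5 : ℓ ∣ 1 := by exact_mod_cast h4
      exact hp.out.one_lt.ne' (Nat.dvd_one.1 h5)
    -- a nonzero power of the uniformiser is not a unit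
    have key : ∀ n : ℕ, n ≠ 0 → ¬ IsU V (algebraMap A κ ϖ ^ n) := by
      intro n hn h
      have h4 : IsU V (algebraMap A κ ϖ) := Pool.Agent.Y748.PS.isU_of_pow (Nat.pos_of_ne_zero hn) h
      exact h4.not_nonunit hϖm
    rcases Int.natAbs_eq (1 - j * ℓ) with h4 | h4
    · rw [h4, zpow_natCast] at h1
      exact key _ (by rwa [Ne, Int.natAbs_eq_zero]) h1
    · rw [h4, zpow_neg, zpow_natCast] at h1
      refine key _ (by rwa [Ne, Int.natAbs_eq_zero]) ?_
      refine ⟨pow_ne_zero _ hϖ0, ?_, h1.2.1⟩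
      have h5 := h1.2.2
      rwa [inv_inv] at h5
  -- roots of units are fixed
  have hfix : ∀ v : κ, ∀ u : A, IsUnit u → v ^ ℓ = algebraMap A κ u → σ v = v := by
    intro v u hu hv
    have hvU : IsU V v := by
      refine Pool.Agent.Y748.PS.isU_of_pow hp.out.pos ?_
      rw [hv]
      exact isU_alg V hVa u hu
    have h1 : (σ v / v) ^ ℓ = 1 := by
      rw [div_pow, ← map_pow, hv, IsScalarTower.algebraMap_apply A k κ, σ.commutes, div_self]
      rw [← IsScalarTower.algebraMap_apply, ← hv]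
      exact pow_ne_zero _ hvU.1
    have h2 : σ v / v - 1 = v⁻¹ * (σ v - v) := by
      have := hvU.1
      field_simp
    have h3 := Pool.Agent.Y748.PS.rou_eq_one hl h1
      (by rw [h2]; exact Pool.Agent.Y748.PS.nu_mul hvU.2.2 (hσ.2 v hvU.2.1))
    exact (div_eq_one_iff_eq hvU.1).1 h3
  have hη : (σ π / π) ^ ℓ = 1 := by
    rw [div_pow, ← map_pow, hπ, IsScalarTower.algebraMap_apply A k κ, σ.commutes, div_self]
    rw [← IsScalarTower.algebraMap_apply]
    exact hϖ0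
  have hη1 : σ π / π ≠ 1 := by
    intro h
    exact hσπ ((div_eq_one_iff_eq hπ0).1 h)
  have hprim : IsPrimitiveRoot (σ π / π) ℓ := by
    have h1 := orderOf_eq_prime hη hη1
    have h2 := IsPrimitiveRoot.orderOf (σ π / π)
    rwa [h1] at h2
  refine ⟨σ, σ π / π, hσ, hprim, ?_⟩
  intro u m c hu hc
  have hc0 : c ≠ 0 := by
    rintro rfl
    rw [zero_pow hℓ0] at hc
    exact mul_ne_zero (isU_alg V hVa u hu).1 (zpow_ne_zero _ hϖ0) hc.symm
  have h1 : (c / π ^ m) ^ ℓ = algebraMap A κ u := by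
    rw [div_pow, hc, ← zpow_natCast (π ^ m), ← zpow_mul, mul_comm m, zpow_mul, zpow_natCast, hπ,
      mul_div_assoc, div_self (zpow_ne_zero _ hϖ0), mul_one]
  have h2 := hfix _ u hu h1
  rw [map_div₀, map_zpow₀] at h2
  have h3 : σ π ≠ 0 := (_root_.map_ne_zero σ).2 hπ0
  have h4 : σ c ≠ 0 := (_root_.map_ne_zero σ).2 hc0
  rw [div_zpow]
  rw [div_eq_div_iff (zpow_ne_zero _ h3) (zpow_ne_zero _ hπ0)] at h2
  rw [div_eq_div_iff hc0 (zpow_ne_zero _ hπ0), h2, mul_comm]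

end inert

variable {A k F Ω : Type} [CommRing A] [IsDomain A] [IsDiscreteValuationRing A]
  [Finite (IsLocalRing.ResidueField A)] [Field k] [CharZero k] [Algebra A k] [IsFractionRing A k]
  [Field F] [Field Ω] [Algebra k F] [Algebra F Ω] [Algebra k Ω] [IsScalarTower k F Ω]
  [IsAlgClosed Ω] [Algebra.IsAlgebraic F Ω]

/-- **no sections** of the geometrically pro-`ℓ` fundamental group of the curve `t x^ℓ + t' y^ℓ = 1` if
the valuations of `t`, `t'` and `t / t'` are not divisible by `ℓ` -/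
theorem no_sec3 {ℓ : ℕ} [hp : Fact ℓ.Prime] (hodd : Odd ℓ) (hℓA : IsUnit (ℓ : A)) (ϖ : A)
    (hϖ : Irreducible ϖ) (t t' : k) (u u' : A) (m m' : ℤ) (hu : IsUnit u) (hu' : IsUnit u')
    (ht : t = algebraMap A k u * algebraMap A k ϖ ^ m)
    (ht' : t' = algebraMap A k u' * algebraMap A k ϖ ^ m')
    (hm : ¬ (ℓ : ℤ) ∣ m) (hm' : ¬ (ℓ : ℤ) ∣ m') (hmm : ¬ (ℓ : ℤ) ∣ m - m')
    (x y : F) (hx : Transcendental k x)
    (hxy : algebraMap k F t * x ^ ℓ + algebraMap k F t' * y ^ ℓ = 1)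
    (hF : IntermediateField.adjoin k {x, y} = (⊤ : IntermediateField k F))
    (N : IntermediateField F Ω) (hN : geomPro ℓ k F Ω ≤ N)
    (S : (algebraicClosure k Ω ≃ₐ[k] algebraicClosure k Ω) →* (N ≃ₐ[F] N)) (hcont : Continuous S)
    (hcompat : ∀ σ (c : algebraicClosure k Ω) (z : N), (z : Ω) = (c : Ω) →
      (S σ z : Ω) = (σ c : Ω)) : False := by
  have hϖ0 : algebraMap A k ϖ ≠ 0 := by
    intro h
    exact hϖ.ne_zero (IsFractionRing.injective A k (by rw [h, map_zero]))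
  have hne : ∀ (w : A) (n : ℤ), IsUnit w → algebraMap A k w * algebraMap A k ϖ ^ n ≠ 0 :=
    fun w n hw => mul_ne_zero (hw.map (algebraMap A k)).ne_zero (zpow_ne_zero _ hϖ0)
  obtain ⟨c, c', R, M, i1, i2, i3, i4, i5, i6, x', Y, T, hc, hc', hC, hTw⟩ :=
    exists_tw hodd t t' (by rw [ht]; exact hne u m hu) (by rw [ht']; exact hne u' m' hu') x y hx hxy
      hF N hN S hcont hcompat
  obtain ⟨V, hVA, hVm⟩ := exists_V A k (algebraicClosure k Ω)
  letI : Algebra A (algebraicClosure k Ω) :=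
    ((algebraMap k (algebraicClosure k Ω)).comp (algebraMap A k)).toAlgebra
  haveI : IsScalarTower A k (algebraicClosure k Ω) := IsScalarTower.of_algebraMap_eq fun _ => rfl
  haveI : IsAlgClosure k (algebraicClosure k Ω) := inferInstance
  obtain ⟨σ, η, hσ, hη, hact⟩ := exists_ine (k := k) (ℓ := ℓ) V hVA hVm hℓA ϖ hϖ
  have e1 : σ c / c = η ^ m' := hact u' m' c hu' (by rw [hc, ht', map_mul, map_zpow₀]; rfl)
  have e2 : σ c' / c' = η ^ m := hact u m c' hu (by rw [hc', ht, map_mul, map_zpow₀]; rfl)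
  have hη0 : η ≠ 0 := hη.ne_zero hp.out.ne_zero
  rcases ine_rotL hC hTw V hVA hVm hℓA σ hσ with h | h | h
  · rw [e1, hη.zpow_eq_one_iff_dvd] at h
    exact hm' h
  · rw [e2, hη.zpow_eq_one_iff_dvd] at h
    exact hm h
  · rw [e1, e2] at h
    apply hmm
    rw [← hη.zpow_eq_one_iff_dvd, zpow_sub₀ hη0, h, div_self (zpow_ne_zero _ hη0)]

end Pool.Agent.X281.FL
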