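import Pool.Agent.X281.FL.Cusp
import Pool.Agent.X281.FL.NoSec

/-!
# Sections of twisted Fermat curves over complete fields
-/

set_option autoImplicit false
set_option linter.all false

namespace Pool.Agent.X281.FL

open Polynomial FF Pool.Agent.Y157.PS

section main

variable {A k F Ω : Type} [CommRing A] [IsDomain A] [IsDiscreteValuationRing A]
  [IsAdicComplete (IsLocalRing.maximalIdeal A) A]
  [Finite (IsLocalRing.ResidueField A)] [Field k] [CharZero k] [Algebra A k] [IsFractionRing A k]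
  [Field F] [Field Ω] [Algebra k F] [Algebra F Ω] [Algebra k Ω] [IsScalarTower k F Ω]
  [IsAlgClosed Ω] [Algebra.IsAlgebraic F Ω]

theorem IsU_not_non {K : Type} [Field K] {W : ValuationSubring K} {z : K} (h : IsU W z) :
    z ∉ W.nonunits ∧ z⁻¹ ∉ W.nonunits := by
  refine ⟨h.not_nonunit, ?_⟩
  have h2 : IsU W z⁻¹ := ⟨inv_ne_zero h.1, h.2.2, by rw [inv_inv]; exact h.2.1⟩
  exact h2.not_nonunit

/-- **one cusp**, for the curve `a x^ℓ + b y^ℓ = c` -/
theorem one_cusp_abc {ℓ : ℕ} [hp : Fact ℓ.Prime] (hodd : Odd ℓ) (hℓA : IsUnit (ℓ : A)) (ϖ : A)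
    (hϖ : Irreducible ϖ) (a b c : k) (i j l : ℤ) (ha : Val ϖ a i) (hb : Val ϖ b j)
    (hc : Val ϖ c l) (hne : ¬ ((ℓ : ℤ) ∣ i - j ∧ (ℓ : ℤ) ∣ j - l))
    (x y : F) (hx : Transcendental k x)
    (hxy : algebraMap k F a * x ^ ℓ + algebraMap k F b * y ^ ℓ = algebraMap k F c)
    (hF : IntermediateField.adjoin k {x, y} = (⊤ : IntermediateField k F))
    (N : IntermediateField F Ω) (hN : geomPro ℓ k F Ω ≤ N)
    (S : (algebraicClosure k Ω ≃ₐ[k] algebraicClosure k Ω) →* (N ≃ₐ[F] N)) (hcont : Continuous S)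
    (hcompat : ∀ σ (c : algebraicClosure k Ω) (z : N), (z : Ω) = (c : Ω) →
      (S σ z : Ω) = (σ c : Ω)) :
    ∃ W : ValuationSubring N,
      (∀ c : k, algebraMap F N (algebraMap k F c) ∈ W) ∧
      (algebraMap F N x ∈ W.nonunits ∨ algebraMap F N y ∈ W.nonunits ∨
        algebraMap F N x⁻¹ ∈ W.nonunits ∨ algebraMap F N y⁻¹ ∈ W.nonunits) ∧
      (∀ z : F, algebraMap F N z ∈ W →
        ∃ c : k, algebraMap F N (z - algebraMap k F c) ∈ W.nonunits) ∧
      (∀ σ, ∀ z : N, (z : Ω) ∈ geomPro ℓ k F Ω → (S σ z ∈ W ↔ z ∈ W)) ∧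
      ∀ W' : ValuationSubring N,
        (∀ c : k, algebraMap F N (algebraMap k F c) ∈ W') →
        (algebraMap F N x ∈ W'.nonunits ∨ algebraMap F N y ∈ W'.nonunits ∨
          algebraMap F N x⁻¹ ∈ W'.nonunits ∨ algebraMap F N y⁻¹ ∈ W'.nonunits) →
        (∀ σ, ∀ z : N, (z : Ω) ∈ geomPro ℓ k F Ω → (S σ z ∈ W' ↔ z ∈ W')) →
        ∀ z : N, (z : Ω) ∈ geomPro ℓ k F Ω → (z ∈ W' ↔ z ∈ W) := by
  have hℓ0 : ℓ ≠ 0 := hp.out.ne_zero
  have hℓpos : 0 < ℓ := hp.out.pos
  have hℓ3 : 3 ≤ ℓ := by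
    obtain ⟨r, hr⟩ := hodd
    have h2 := hp.out.two_le
    omega
  have ha0 := ha.ne_zero hϖ
  have hb0 := hb.ne_zero hϖ
  have hc0 := hc.ne_zero hϖ
  have haF : algebraMap k F a ≠ 0 := (_root_.map_ne_zero _).2 ha0
  have hbF : algebraMap k F b ≠ 0 := (_root_.map_ne_zero _).2 hb0
  have hcF : algebraMap k F c ≠ 0 := (_root_.map_ne_zero _).2 hc0
  have hx0 : x ≠ 0 := by
    rintro rfl
    exact hx isAlgebraic_zero
  have hy : Transcendental k y := by
    intro h
    apply hx
    have h1 : IsAlgebraic k (x ^ ℓ) := by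
      have h2 : x ^ ℓ = algebraMap k F a⁻¹ * (algebraMap k F c - algebraMap k F b * y ^ ℓ) := by
        rw [← hxy, add_sub_cancel_right, map_inv₀, inv_mul_cancel_left₀ haF]
      rw [h2]
      exact (isAlgebraic_algebraMap _).mul
        ((isAlgebraic_algebraMap _).sub ((isAlgebraic_algebraMap _).mul (h.pow ℓ)))
    exact h1.of_pow hℓpos
  have hy0 : y ≠ 0 := by
    rintro rfl
    exact hy isAlgebraic_zero
  by_cases h1 : (ℓ : ℤ) ∣ i - j
  · -- the cusps at infinity
    have hm : ¬ (ℓ : ℤ) ∣ l - j := by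
      intro h
      apply hne
      refine ⟨h1, ?_⟩
      rw [← dvd_neg]
      rwa [neg_sub]
    have hq : Transcendental k (x / y) := by
      intro h
      apply hy
      have h2 : IsAlgebraic k ((y⁻¹) ^ ℓ) := by
        have h3 : (y⁻¹) ^ ℓ = algebraMap k F c⁻¹ *
            (algebraMap k F a * (x / y) ^ ℓ + algebraMap k F b) := by
          rw [map_inv₀, div_pow, inv_pow]
          field_simp
          linear_combination -hxy
        rw [h3]
        exact (isAlgebraic_algebraMap _).mul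
          (((isAlgebraic_algebraMap _).mul (h.pow ℓ)).add (isAlgebraic_algebraMap _))
      have h4 := IsAlgebraic.inv (h2.of_pow hℓpos)
      rwa [inv_inv] at h4
    have hF1 : IntermediateField.adjoin k {x / y, y⁻¹} = (⊤ : IntermediateField k F) := by
      rw [eq_top_iff, ← hF, IntermediateField.adjoin_le_iff]
      have hyi : y⁻¹ ∈ IntermediateField.adjoin k {x / y, y⁻¹} :=
        IntermediateField.subset_adjoin k _ (by simp)
      have hym : y ∈ IntermediateField.adjoin k {x / y, y⁻¹} := by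
        have h2 := inv_mem hyi
        rwa [inv_inv] at h2
      intro z hz
      rcases hz with hz | hz
      · rw [hz]
        have h2 : x / y * y ∈ IntermediateField.adjoin k {x / y, y⁻¹} :=
          mul_mem (IntermediateField.subset_adjoin k _ (by simp)) hym
        rwa [div_mul_cancel₀ _ hy0] at h2
      · rw [Set.mem_singleton_iff] at hz
        rw [hz]
        exact hym
    obtain ⟨W, h2, h3, h4, h5, hun⟩ := one_cusp hℓ3 hℓA ϖ hϖ (a / b) (c / b) (i - j) (l - j)
      (ha.div hϖ hb) (hc.div hϖ hb) h1 hm (x / y) y⁻¹ hq (by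
        rw [map_div₀, map_div₀, div_pow, inv_pow]
        field_simp
        linear_combination -hxy) hF1 N hN S hcont hcompat
    refine ⟨W, h2, Or.inr (Or.inr (Or.inr h3)), h4, h5, fun W' h6 h7 h8 => hun W' h6 ?_ h8⟩
    rintro ⟨h9, h10⟩
    have h11 : IsU W' (algebraMap F N y) := by
      refine ⟨(_root_.map_ne_zero _).2 hy0, ?_, ?_⟩
      · have h12 := h10.2.2
        rwa [map_inv₀, inv_inv] at h12
      · have h12 := h10.2.1
        rwa [map_inv₀] at h12
    have h12 : IsU W' (algebraMap F N x) := by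
      have h13 : algebraMap F N x = algebraMap F N (x / y) * algebraMap F N y := by
        rw [← map_mul, div_mul_cancel₀ _ hy0]
      rw [h13]
      refine ⟨mul_ne_zero h9.1 h11.1, mul_mem h9.2.1 h11.2.1, ?_⟩
      rw [mul_inv]
      exact mul_mem h9.2.2 h11.2.2
    rcases h7 with h | h | h | h
    · exact (IsU_not_non h12).1 h
    · exact (IsU_not_non h11).1 h
    · rw [map_inv₀] at h; exact (IsU_not_non h12).2 h
    · rw [map_inv₀] at h; exact (IsU_not_non h11).2 h
  by_cases h2 : (ℓ : ℤ) ∣ j - l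
  · -- the cusps with `x = 0`
    have hm : ¬ (ℓ : ℤ) ∣ i - l := by
      intro h
      apply h1
      have h3 : i - j = (i - l) - (j - l) := by ring
      rw [h3]
      exact dvd_sub h h2
    have hF1 : IntermediateField.adjoin k {y, x} = (⊤ : IntermediateField k F) := by
      rw [Set.pair_comm]
      exact hF
    obtain ⟨W, h3, h4, h5, h6, hun⟩ := one_cusp hℓ3 hℓA ϖ hϖ (-(b / c)) (a / c) (j - l) (i - l)
      (hb.div hϖ hc).neg (ha.div hϖ hc) h2 hm y x hy (by
        rw [map_neg, map_div₀, map_div₀]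
        field_simp
        linear_combination hxy) hF1 N hN S hcont hcompat
    refine ⟨W, h3, Or.inl h4, h5, h6, fun W' h7 h8 h9 => hun W' h7 ?_ h9⟩
    rintro ⟨h10, h11⟩
    rcases h8 with h | h | h | h
    · exact (IsU_not_non h11).1 h
    · exact (IsU_not_non h10).1 h
    · rw [map_inv₀] at h; exact (IsU_not_non h11).2 h
    · rw [map_inv₀] at h; exact (IsU_not_non h10).2 h
  by_cases h3 : (ℓ : ℤ) ∣ i - l
  · -- the cusps with `y = 0`
    obtain ⟨W, h4, h5, h6, h7, hun⟩ := one_cusp hℓ3 hℓA ϖ hϖ (-(a / c)) (b / c) (i - l) (j - l)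
      (ha.div hϖ hc).neg (hb.div hϖ hc) h3 h2 x y hx (by
        rw [map_neg, map_div₀, map_div₀]
        field_simp
        linear_combination hxy) hF N hN S hcont hcompat
    refine ⟨W, h4, Or.inr (Or.inl h5), h6, h7, fun W' h8 h9 h10 => hun W' h8 ?_ h10⟩
    rintro ⟨h11, h12⟩
    rcases h9 with h | h | h | h
    · exact (IsU_not_non h11).1 h
    · exact (IsU_not_non h12).1 h
    · rw [map_inv₀] at h; exact (IsU_not_non h11).2 h
    · rw [map_inv₀] at h; exact (IsU_not_non h12).2 h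
  · -- no sections
    exfalso
    obtain ⟨t, ht, h4⟩ := ha.div hϖ hc
    obtain ⟨t', ht', h5⟩ := hb.div hϖ hc
    refine no_sec3 hodd hℓA ϖ hϖ (a / c) (b / c) t t' (i - l) (j - l) ht ht' h4 h5 h3 h2 ?_ x y hx
      ?_ hF N hN S hcont hcompat
    · have h6 : i - l - (j - l) = i - j := by ring
      rw [h6]
      exact h1
    · rw [map_div₀, map_div₀]
      field_simp
      exact hxy

end main

end Pool.Agent.X281.FL
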