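import Pool.Agent.Y157.PS.Ind2

/-!
# Residue classes at a place fixed by a section
-/

set_option autoImplicit false
set_option linter.all false

namespace Pool.Agent.X281.FL

open Polynomial FF Pool.Agent.Y157.PS

section res

variable {k F Ω : Type} [Field k] [Field F] [Field Ω] [Algebra k F] [Algebra F Ω] [Algebra k Ω]
  [IsScalarTower k F Ω]

theorem stable_nonP (P : IntermediateField F Ω) (N : IntermediateField F Ω)
    (W : ValuationSubring N) (τ : N ≃ₐ[F] N)
    (hτ : ∀ z : N, (z : Ω) ∈ P → (τ z ∈ W ↔ z ∈ W)) (z : N) (hz : (z : Ω) ∈ P)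
    (h : z ∈ W.nonunits) : τ z ∈ W.nonunits := by
  rw [nonunits_iff] at h ⊢
  refine ⟨(hτ z hz).2 h.1, ?_⟩
  rcases h.2 with h2 | h2
  · left
    rw [h2, map_zero]
  · right
    rw [← map_inv₀, hτ _ (by
      change (z : Ω)⁻¹ ∈ P
      exact inv_mem hz)]
    exact h2

theorem res_fixedP {ℓ : ℕ} (N : IntermediateField F Ω) (W : ValuationSubring N)
    (hW : ∀ c : k, algebraMap F N (algebraMap k F c) ∈ W)
    (σ : algebraicClosure k Ω ≃ₐ[k] algebraicClosure k Ω) (τ : N ≃ₐ[F] N)
    (hτ : ∀ z : N, (z : Ω) ∈ geomPro ℓ k F Ω → (τ z ∈ W ↔ z ∈ W))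
    (hστ : ∀ (c : algebraicClosure k Ω) (z : N), (z : Ω) = (c : Ω) → (τ z : Ω) = (σ c : Ω))
    (z : F) (c : algebraicClosure k Ω) (z' : N) (hz' : z' ∈ W.nonunits)
    (hzc : (z' : Ω) = algebraMap F Ω z - (c : Ω)) : σ c = c := by
  have hz'P : (z' : Ω) ∈ geomPro ℓ k F Ω := by
    rw [hzc]
    exact sub_mem ((geomPro ℓ k F Ω).algebraMap_mem z) (const_geomPro ℓ k c)
  have h1 : τ z' ∈ W.nonunits := stable_nonP _ N W τ hτ z' hz'P hz'
  have h2 := non_sub hz' h1
  set cN : N := algebraMap F N z - z' with hcN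
  have h3 : (cN : Ω) = (c : Ω) := by
    change algebraMap F Ω z - (z' : Ω) = _
    rw [hzc]
    ring
  have h4 : τ z' = algebraMap F N z - τ cN := by
    have h5 : z' = algebraMap F N z - cN := by rw [hcN]; ring
    conv_lhs => rw [h5]
    rw [map_sub, τ.commutes]
  have h6 : ((z' - τ z' : N) : Ω) = ((σ c - c : algebraicClosure k Ω) : Ω) := by
    rw [h4]
    change (z' : Ω) - (algebraMap F Ω z - (τ cN : Ω)) = (σ c : Ω) - (c : Ω)
    rw [hστ c cN h3, hzc]
    ring
  exact sub_eq_zero.1 (const_non_N N W hW _ _ h6 h2)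

/-- at a place which is fixed by a section, a function whose `ℓ`-th power is congruent to `e`
is congruent to an `ℓ`-th root of `e` in `k` -/
theorem cusp_root [CharZero k] [IsAlgClosed Ω] {ℓ : ℕ} (hℓ : 0 < ℓ) (N : IntermediateField F Ω)
    (hN : geomPro ℓ k F Ω ≤ N)
    (S : (algebraicClosure k Ω ≃ₐ[k] algebraicClosure k Ω) →* (N ≃ₐ[F] N))
    (hcompat : ∀ σ (c : algebraicClosure k Ω) (z : N), (z : Ω) = (c : Ω) →
      (S σ z : Ω) = (σ c : Ω))
    (W : ValuationSubring N) (hW : ∀ c : k, algebraMap F N (algebraMap k F c) ∈ W)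
    (hst : ∀ σ, ∀ z : N, (z : Ω) ∈ geomPro ℓ k F Ω → (S σ z ∈ W ↔ z ∈ W))
    (z : F) (e : k) (he : algebraMap F N (z ^ ℓ - algebraMap k F e) ∈ W.nonunits) :
    ∃ c : k, c ^ ℓ = e := by
  classical
  haveI : IsAlgClosure k (algebraicClosure k Ω) := inferInstance
  haveI : IsAlgClosed (algebraicClosure k Ω) := IsAlgClosure.isAlgClosed k
  haveI : Normal k (algebraicClosure k Ω) := IsAlgClosure.normal k _
  haveI hGal : IsGalois k (algebraicClosure k Ω) := ⟨⟩
  let ι : algebraicClosure k Ω →+* N :=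
    { toFun := fun c => ⟨(c : Ω), hN (const_geomPro ℓ k c)⟩
      map_one' := rfl
      map_mul' := fun _ _ => rfl
      map_zero' := rfl
      map_add' := fun _ _ => rfl }
  have hι : ∀ c : algebraicClosure k Ω, ((ι c : N) : Ω) = (c : Ω) := fun c => rfl
  set p : (algebraicClosure k Ω)[X] := X ^ ℓ - C (algebraMap k (algebraicClosure k Ω) e) with hp
  have hpm : p.Monic := monic_X_pow_sub_C _ hℓ.ne'
  have hsp : p.Splits := IsAlgClosed.splits p
  have hprod : p = (p.roots.map fun a => X - C a).prod := hsp.eq_prod_roots_of_monic hpm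
  have hev : p.eval₂ ι (algebraMap F N z) =
      (p.roots.map fun a => algebraMap F N z - ι a).prod := by
    conv_lhs => rw [hprod]
    rw [eval₂_multiset_prod, Multiset.map_map]
    congr 1
    refine Multiset.map_congr rfl fun a _ => ?_
    simp only [Function.comp, eval₂_sub, eval₂_X, eval₂_C]
  have hev' : p.eval₂ ι (algebraMap F N z) = algebraMap F N (z ^ ℓ - algebraMap k F e) := by
    rw [hp, eval₂_sub, eval₂_X_pow, eval₂_C, map_sub, map_pow]
    congr 1
    apply Subtype.ext
    rw [hι]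
    exact IsScalarTower.algebraMap_apply k F Ω e
  rw [← hev', hev] at he
  obtain ⟨a, ha, hn⟩ : ∃ a ∈ p.roots, algebraMap F N z - ι a ∈ W.nonunits := by
    by_contra hcon
    push Not at hcon
    have h1 : ∀ s : Multiset (algebraicClosure k Ω), (∀ a ∈ s, a ∈ p.roots) →
        ((s.map fun a => algebraMap F N z - ι a).prod)⁻¹ ∈ W := by
      intro s
      induction s using Multiset.induction_on with
      | empty => intro _; simp
      | cons a s ih =>
        intro h
        rw [Multiset.map_cons, Multiset.prod_cons, mul_inv]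
        exact mul_mem (inv_mem_of_not_nonunit (hcon a (h a (Multiset.mem_cons_self a s))))
          (ih fun b hb => h b (Multiset.mem_cons_of_mem hb))
    have h2 := h1 p.roots (fun a h => h)
    rcases (nonunits_iff.1 he).2 with h3 | h3
    · rw [Multiset.prod_eq_zero_iff, Multiset.mem_map] at h3
      obtain ⟨a, ha, h4⟩ := h3
      apply hcon a ha
      rw [h4]
      exact nonunits_iff.2 ⟨zero_mem _, Or.inl rfl⟩
    · exact h3 h2
  have hfix : ∀ σ : algebraicClosure k Ω ≃ₐ[k] algebraicClosure k Ω, σ a = a := fun σ =>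
    res_fixedP N W hW σ (S σ) (hst σ) (fun c w hw => hcompat σ c w hw) z a _ hn rfl
  have h5 : a ∈ (⊥ : IntermediateField k (algebraicClosure k Ω)) :=
    (InfiniteGalois.mem_bot_iff_fixed a).2 hfix
  obtain ⟨c, hc⟩ := IntermediateField.mem_bot.1 h5
  refine ⟨c, (algebraMap k (algebraicClosure k Ω)).injective ?_⟩
  have h6 : p.IsRoot a := (mem_roots hpm.ne_zero).1 ha
  rw [IsRoot.def, hp, eval_sub, eval_X_pow, eval_C, sub_eq_zero] at h6
  rw [map_pow, hc, h6]

end res

end Pool.Agent.X281.FL
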