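import Pool.Agent.X281.FL.Ine
import Pool.Agent.Y158.FQ.Set
import Pool.Agent.Y157.PS.Sup2

/-!
# Twisted Fermat curves: no sections if the inertia group acts without fixed points
-/

set_option autoImplicit false
set_option linter.all false

namespace Pool.Agent.X281.FL

open Polynomial FF Pool.Agent.Y157.PS Pool.Agent.Y158.FQ

section base

variable {k F Ω : Type} [Field k] [Field F] [Field Ω] [Algebra k F] [Algebra F Ω] [Algebra k Ω]
  [IsScalarTower k F Ω]

/-- the covering fields of a twisted Fermat curve and of the Fermat curve agree -/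
theorem geomPro_tw {ℓ : ℕ} (x y : F)
    (hF : IntermediateField.adjoin k {x, y} = (⊤ : IntermediateField k F))
    (c c' : algebraicClosure k Ω) (hc : c ≠ 0) (hc' : c' ≠ 0) (z : Ω) :
    z ∈ geomPro ℓ k (IntermediateField.adjoin k
      {(c' : Ω) * algebraMap F Ω x, (c : Ω) * algebraMap F Ω y}) Ω ↔ z ∈ geomPro ℓ k F Ω := by
  set u : Ω := (c' : Ω) * algebraMap F Ω x with hu
  set w : Ω := (c : Ω) * algebraMap F Ω y with hw
  have hcΩ : (c : Ω) ≠ 0 := fun h => hc (Subtype.ext h)
  have hcΩ' : (c' : Ω) ≠ 0 := fun h => hc' (Subtype.ext h)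
  have hux : algebraMap F Ω x = (c' : Ω)⁻¹ * u := by rw [hu, inv_mul_cancel_left₀ hcΩ']
  have hwy : algebraMap F Ω y = (c : Ω)⁻¹ * w := by rw [hw, inv_mul_cancel_left₀ hcΩ]
  have h1 : ∀ z ∈ geomF k (IntermediateField.adjoin k {u, w}) Ω, (RingEquiv.refl Ω) z ∈
      geomF k F Ω := by
    refine geomF_le (RingEquiv.refl Ω) (fun z hz => hz) (fun z => ?_)
    refine adjoin_le_sub (T := (geomF k F Ω).toSubfield) (fun r => ?_) (fun t ht => ?_) _ z.2
    · exact IntermediateField.subset_adjoin _ _ ((algebraicClosure k Ω).algebraMap_mem r)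
    · rcases ht with ht | ht
      · rw [ht]
        exact mul_mem (IntermediateField.subset_adjoin _ _ c'.2)
          ((geomF k F Ω).algebraMap_mem x)
      · rw [Set.mem_singleton_iff] at ht
        rw [ht]
        exact mul_mem (IntermediateField.subset_adjoin _ _ c.2)
          ((geomF k F Ω).algebraMap_mem y)
  have h2 : ∀ z ∈ geomF k F Ω, (RingEquiv.refl Ω) z ∈
      geomF k (IntermediateField.adjoin k {u, w}) Ω := by
    refine geomF_le (RingEquiv.refl Ω) (fun z hz => hz) (fun z => ?_)
    have hmem : ∀ t ∈ ({u, w} : Set Ω), t ∈ geomF k (IntermediateField.adjoin k {u, w}) Ω := by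
      intro t ht
      exact (geomF k (IntermediateField.adjoin k {u, w}) Ω).algebraMap_mem
        (⟨t, IntermediateField.subset_adjoin k _ ht⟩ : IntermediateField.adjoin k {u, w})
    have hz : z ∈ IntermediateField.adjoin k {x, y} := by rw [hF]; trivial
    refine adjoin_le_sub
      (T := (geomF k (IntermediateField.adjoin k {u, w}) Ω).toSubfield.comap (algebraMap F Ω))
      (fun r => ?_) (fun t ht => ?_) _ hz
    · rw [Subfield.mem_comap, ← IsScalarTower.algebraMap_apply]
      exact IntermediateField.subset_adjoin _ _ ((algebraicClosure k Ω).algebraMap_mem r)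
    · rw [Subfield.mem_comap]
      rcases ht with ht | ht
      · rw [ht, hux]
        exact mul_mem (IntermediateField.subset_adjoin _ _ (inv_mem c'.2)) (hmem u (by simp))
      · rw [Set.mem_singleton_iff] at ht
        rw [ht, hwy]
        exact mul_mem (IntermediateField.subset_adjoin _ _ (inv_mem c.2)) (hmem w (by simp))
  constructor
  · intro hz
    exact geomPro_map (RingEquiv.refl Ω) h1 h2 (fun W hW r => hW r) z hz
  · intro hz
    exact geomPro_map (RingEquiv.refl Ω) h2 h1 (fun W hW r => hW r) z hz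

end base

section sec

variable {A k F Ω : Type} [CommRing A] [IsDomain A] [IsDiscreteValuationRing A]
  [Finite (IsLocalRing.ResidueField A)] [Field k] [CharZero k] [Algebra A k] [IsFractionRing A k]
  [Field F] [Field Ω] [Algebra k F] [Algebra F Ω] [Algebra k Ω] [IsScalarTower k F Ω]
  [IsAlgClosed Ω] [Algebra.IsAlgebraic F Ω]

/-- the action on the covering field of the Fermat curve -/
theorem exists_tw {ℓ : ℕ} [hp : Fact ℓ.Prime] (hodd : Odd ℓ) (t t' : k) (ht : t ≠ 0) (ht' : t' ≠ 0)
    (x y : F) (hx : Transcendental k x)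
    (hxy : algebraMap k F t * x ^ ℓ + algebraMap k F t' * y ^ ℓ = 1)
    (hF : IntermediateField.adjoin k {x, y} = (⊤ : IntermediateField k F))
    (N : IntermediateField F Ω) (hN : geomPro ℓ k F Ω ≤ N)
    (S : (algebraicClosure k Ω ≃ₐ[k] algebraicClosure k Ω) →* (N ≃ₐ[F] N)) (hcont : Continuous S)
    (hcompat : ∀ σ (c : algebraicClosure k Ω) (z : N), (z : Ω) = (c : Ω) →
      (S σ z : Ω) = (σ c : Ω)) :
    ∃ (c c' : algebraicClosure k Ω) (R M : Type) (_ : Field R) (_ : Field M)
      (_ : Algebra (algebraicClosure k Ω) R)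
      (_ : Algebra R M) (_ : Algebra (algebraicClosure k Ω) M)
      (_ : IsScalarTower (algebraicClosure k Ω) R M) (x' : R) (Y : M)
      (T : (algebraicClosure k Ω ≃ₐ[k] algebraicClosure k Ω) →* RingAut M),
      c ^ ℓ = algebraMap k (algebraicClosure k Ω) t' ∧
      c' ^ ℓ = algebraMap k (algebraicClosure k Ω) t ∧
      Cov ℓ (algebraicClosure k Ω) R M x' (nthRootsFinset ℓ (1 : algebraicClosure k Ω)) Y ∧
      Tw ℓ k (algebraicClosure k Ω) R M x' Y c c' T := by
  classical
  have hℓ0 : ℓ ≠ 0 := hp.out.ne_zero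
  have hℓpos := hp.out.pos
  haveI : IsAlgClosure F Ω := ⟨inferInstance, inferInstance⟩
  haveI : IsAlgClosure k (algebraicClosure k Ω) := inferInstance
  haveI : IsAlgClosed (algebraicClosure k Ω) := IsAlgClosure.isAlgClosed k
  haveI : CharZero (algebraicClosure k Ω) :=
    charZero_of_injective_algebraMap (algebraMap k (algebraicClosure k Ω)).injective
  obtain ⟨c, hc⟩ := IsAlgClosed.exists_pow_nat_eq (algebraMap k (algebraicClosure k Ω) t') hℓpos
  obtain ⟨c', hc'⟩ := IsAlgClosed.exists_pow_nat_eq (algebraMap k (algebraicClosure k Ω) t) hℓpos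
  have hc0 : c ≠ 0 := by
    rintro rfl
    rw [zero_pow hℓ0] at hc
    exact ht' ((_root_.map_eq_zero _).1 hc.symm)
  have hc0' : c' ≠ 0 := by
    rintro rfl
    rw [zero_pow hℓ0] at hc'
    exact ht ((_root_.map_eq_zero _).1 hc'.symm)
  have hcΩ : ((c : Ω)) ^ ℓ = algebraMap F Ω (algebraMap k F t') := by
    rw [← IsScalarTower.algebraMap_apply k F Ω]
    exact congrArg Subtype.val hc
  have hcΩ' : ((c' : Ω)) ^ ℓ = algebraMap F Ω (algebraMap k F t) := by
    rw [← IsScalarTower.algebraMap_apply k F Ω]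
    exact congrArg Subtype.val hc'
  set u : Ω := (c' : Ω) * algebraMap F Ω x with hu
  set w : Ω := (c : Ω) * algebraMap F Ω y with hw
  have huw : u ^ ℓ + w ^ ℓ = 1 := by
    rw [hu, hw, mul_pow, mul_pow, hcΩ, hcΩ', ← map_pow, ← map_pow, ← map_mul, ← map_mul, ← map_add,
      hxy, map_one]
  have hc0Ω' : (c' : Ω) ≠ 0 := fun h => hc0' (Subtype.ext h)
  have hc0Ω : (c : Ω) ≠ 0 := fun h => hc0 (Subtype.ext h)
  have hxΩ : Transcendental k (algebraMap F Ω x) :=
    (transcendental_algebraMap_iff (R := k) (algebraMap F Ω).injective (a := x)).2 hx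
  have hut : Transcendental k u := by
    intro h
    apply hxΩ
    have h1 : algebraMap F Ω x = (c' : Ω)⁻¹ * u := by rw [hu, inv_mul_cancel_left₀ hc0Ω']
    rw [h1]
    exact (IsAlgebraic.inv (mem_algebraicClosure_iff.1 c'.2)).mul h
  have hx0 : x ≠ 0 := by
    rintro rfl
    exact hx isAlgebraic_zero
  have hy0 : y ≠ 0 := by
    rintro rfl
    rw [zero_pow hℓ0, mul_zero, add_zero] at hxy
    apply hx
    have h1 : IsAlgebraic k (x ^ ℓ) := by
      have h2 : x ^ ℓ = algebraMap k F t⁻¹ := by
        rw [map_inv₀]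
        exact eq_inv_of_mul_eq_one_right hxy
      rw [h2]
      exact isAlgebraic_algebraMap _
    exact h1.of_pow hℓpos
  -- the Fermat curve
  let F₁ : IntermediateField k Ω := IntermediateField.adjoin k {u, w}
  have huF : u ∈ F₁ := IntermediateField.subset_adjoin k _ (by simp)
  have hwF : w ∈ F₁ := IntermediateField.subset_adjoin k _ (by simp)
  have hΩ1 : Algebra.IsAlgebraic F₁ Ω := by
    -- every element of `F` is algebraic over `F₁`
    have hxa : IsAlgebraic F₁ (algebraMap F Ω x) := by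
      have h1 : algebraMap F Ω x = (c' : Ω)⁻¹ * u := by rw [hu, inv_mul_cancel_left₀ hc0Ω']
      rw [h1]
      exact ((IsAlgebraic.inv (mem_algebraicClosure_iff.1 c'.2)).extendScalars (algebraMap k F₁).injective).mul
        (isAlgebraic_algebraMap (⟨u, huF⟩ : F₁))
    have hya : IsAlgebraic F₁ (algebraMap F Ω y) := by
      have h1 : algebraMap F Ω y = (c : Ω)⁻¹ * w := by rw [hw, inv_mul_cancel_left₀ hc0Ω]
      rw [h1]
      exact ((IsAlgebraic.inv (mem_algebraicClosure_iff.1 c.2)).extendScalars (algebraMap k F₁).injective).mul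
        (isAlgebraic_algebraMap (⟨w, hwF⟩ : F₁))
    have hFa : ∀ z : F, IsAlgebraic F₁ (algebraMap F Ω z) := by
      intro z
      have hz : z ∈ IntermediateField.adjoin k {x, y} := by rw [hF]; trivial
      have h1 := adjoin_le_sub (K := k) (S := {x, y})
        (T := (_root_.algebraicClosure F₁ Ω).toSubfield.comap (algebraMap F Ω))
        (fun r => by
          rw [Subfield.mem_comap, ← IsScalarTower.algebraMap_apply]
          exact mem_algebraicClosure_iff.2
            ((isAlgebraic_algebraMap (A := Ω) r).extendScalars (algebraMap k F₁).injective))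
        (fun s hs => by
          rw [Subfield.mem_comap]
          rcases hs with hs | hs
          · rw [hs]; exact mem_algebraicClosure_iff.2 hxa
          · rw [Set.mem_singleton_iff] at hs
            rw [hs]; exact mem_algebraicClosure_iff.2 hya) z hz
      exact mem_algebraicClosure_iff.1 h1
    refine ⟨fun z => ?_⟩
    let f : F →+* _root_.algebraicClosure F₁ Ω :=
      (algebraMap F Ω).codRestrict (_root_.algebraicClosure F₁ Ω).toSubfield
        (fun z => mem_algebraicClosure_iff.2 (hFa z))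
    letI : Algebra F (_root_.algebraicClosure F₁ Ω) := f.toAlgebra
    haveI : IsScalarTower F (_root_.algebraicClosure F₁ Ω) Ω :=
      IsScalarTower.of_algebraMap_eq fun _ => rfl
    have h1 : IsAlgebraic F z := Algebra.IsAlgebraic.isAlgebraic z
    have h2 : IsAlgebraic (_root_.algebraicClosure F₁ Ω) z := h1.extendScalars f.injective
    haveI : Algebra.IsAlgebraic F₁ (_root_.algebraicClosure F₁ Ω) := inferInstance
    exact h2.restrictScalars F₁
  have htop : IntermediateField.adjoin k {(⟨u, huF⟩ : F₁), ⟨w, hwF⟩} =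
      (⊤ : IntermediateField k F₁) := by
    apply IntermediateField.map_injective F₁.val
    rw [IntermediateField.adjoin_map, Set.image_pair, ← AlgHom.fieldRange_eq_map,
      IntermediateField.fieldRange_val]
    rfl
  have hu1t : Transcendental k (⟨u, huF⟩ : F₁) := by
    rw [← transcendental_algebraMap_iff (R := k) (A := Ω) (algebraMap F₁ Ω).injective]
    exact hut
  have hrel1 : (⟨u, huF⟩ : F₁) ^ ℓ + (⟨w, hwF⟩ : F₁) ^ ℓ = 1 := Subtype.ext huw
  obtain ⟨R, M, i1, i2, i3, i4, i5, i6, x', Y, eqv, hC, hcc, hx', hY'⟩ :=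
    setupF (Ω := Ω) hodd (⟨u, huF⟩ : F₁) ⟨w, hwF⟩ hu1t htop hrel1
  have hFalg : Algebra.IsAlgebraic (IntermediateField.adjoin k {x}) F := by
    refine alg_of_eqn hℓpos (1 - C t * X ^ ℓ) t' ht' x y ?_ hF
    rw [map_sub, map_one, map_mul, map_pow, aeval_C, aeval_X, ← hxy]
    ring
  -- the maps
  let i₀ : geomPro ℓ k F₁ Ω →+* N :=
    { toFun := fun z => ⟨(z : Ω), hN ((geomPro_tw x y hF c c' hc0 hc0' _).1 z.2)⟩
      map_one' := rfl
      map_mul' := fun _ _ => rfl
      map_zero' := rfl
      map_add' := fun _ _ => rfl }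
  let i : M →+* N := i₀.comp (eqv : M →+* geomPro ℓ k F₁ Ω)
  have hi : ∀ z : M, ((i z : N) : Ω) = ((eqv z : geomPro ℓ k F₁ Ω) : Ω) := fun z => rfl
  let S' : (algebraicClosure k Ω ≃ₐ[k] algebraicClosure k Ω) →* RingAut N :=
    { toFun := fun g => (S g : N ≃+* N)
      map_one' := by rw [map_one]; rfl
      map_mul' := fun g g' => by rw [map_mul]; rfl }
  have hS : ∀ g z, S' g z = S g z := fun g z => rfl
  haveI : Normal F Ω := IsAlgClosure.normal F Ω
  have hstab : ∀ (e : N ≃ₐ[F] N) (z : N), (z : Ω) ∈ geomPro ℓ k F Ω →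
      ((e z : N) : Ω) ∈ geomPro ℓ k F Ω := by
    intro e z hz
    have h1 : e.liftNormal Ω (algebraMap N Ω z) = algebraMap N Ω (e z) := e.liftNormal_commutes Ω _
    have h2 := (a_inrt ℓ k F Ω x hx hFalg).2 (e.liftNormal Ω) (z : Ω) hz
    rw [show (e.liftNormal Ω) (z : Ω) = ((e z : N) : Ω) from h1] at h2
    exact h2
  obtain ⟨T, hT⟩ := restrict_hom i S' (fun g z => by
    have h1 := hstab (S g) (i z) ((geomPro_tw x y hF c c' hc0 hc0' _).1 (eqv z).2)
    refine ⟨eqv.symm ⟨_, (geomPro_tw x y hF c c' hc0 hc0' _).2 h1⟩, ?_⟩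
    apply Subtype.ext
    rw [hi, eqv.apply_symm_apply]
    rfl)
  have hconst : ∀ c : algebraicClosure k Ω,
      ((i (algebraMap (algebraicClosure k Ω) M c) : N) : Ω) = (c : Ω) := by
    intro c
    rw [hi, hcc]
  have hTconst : ∀ g c, T g (algebraMap (algebraicClosure k Ω) M c) =
      algebraMap (algebraicClosure k Ω) M (g c) := by
    intro g c
    apply i.injective
    apply Subtype.ext
    rw [hT, hS, hcompat g c _ (hconst c), hconst]
  have hmain : ∀ (Z : M) (d : algebraicClosure k Ω) (z : F), d ≠ 0 →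
      ((i Z : N) : Ω) = (d : Ω) * algebraMap F Ω z →
      ∀ g, T g Z = algebraMap (algebraicClosure k Ω) M (g d / d) * Z := by
    intro Z d z hd hZ g
    have hZ' : i Z = i (algebraMap (algebraicClosure k Ω) M d) * algebraMap F N z := by
      apply Subtype.ext
      rw [hZ]
      change _ = ((i (algebraMap (algebraicClosure k Ω) M d) : N) : Ω) * algebraMap F Ω z
      rw [hconst]
    apply i.injective
    rw [hT, hS, map_mul i, hZ', map_mul, (S g).commutes]
    have h5 : S g (i (algebraMap (algebraicClosure k Ω) M d)) =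
        i (algebraMap (algebraicClosure k Ω) M (g d)) := by
      rw [← hTconst, hT, hS]
    rw [h5, ← mul_assoc, ← map_mul i, ← map_mul, div_mul_cancel₀ _ hd]
  have hcontT : ∀ z : M, ∃ E : IntermediateField k (algebraicClosure k Ω),
      FiniteDimensional k E ∧ ∀ σ ∈ E.fixingSubgroup, T σ z = z := by
    intro z
    obtain ⟨E, hE, hE'⟩ := cont_fix S hcont (i z)
    refine ⟨E, hE, fun σ hσ => i.injective ?_⟩
    rw [hT]
    exact hE' σ hσ
  refine ⟨c, c', R, M, i1, i2, i3, i4, i5, i6, x', Y, T, hc, hc', hC, hTconst, ?_, ?_, hcontT, hc0,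
    hc0', ⟨t', hc.symm⟩, ⟨t, hc'.symm⟩⟩
  · intro g
    exact hmain _ c' x hc0' (by rw [hi, hx']; rfl) g
  · intro g
    refine hmain _ c (-y) hc0 ?_ g
    rw [hi, hY']
    change -w = _
    rw [hw, map_neg, mul_neg]

end sec

end Pool.Agent.X281.FL
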